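import Pool.Agent.N801.KO.Main

/-!
# The Kuznetsov component of a very general cubic fourfold does not embed in a surface
-/

set_option autoImplicit false

universe v u

namespace Pool.Agent.Results.MP_7692e7_ag.NoSurface

open CategoryTheory Pool.Agent.Y95.Q Pool.Agent.N801.CF Pool.Agent.N801.KO

/-- **The Kuznetsov component of a very general cubic fourfold does not embed in the derived
category of a surface.**

1. If a cubic fourfold `X` has no associated K3 surface, then no surface `S` admits a fully faithful
   exact functor `Ku(X) → D(S)`.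
2. This is so if `X` is not special, that is, if the group of Hodge classes has rank one.
3. As a very general cubic fourfold is not special (Voisin, Hassett), no surface `S` admits a
   fully faithful exact functor `Ku(X) → D(S)`, for a very general cubic fourfold `X`. -/
theorem result (H : ∀ X : CubicFourfold, H4 X) (hH : ∀ X, (H X).IsCohomology) :
    (∀ X, ¬ (H X).HasK3 → NoEmbedding.{v, u} (H X)) ∧
    (∀ X, (H X).rank = 1 → NoEmbedding.{v, u} (H X)) ∧
    (VeryGeneral (fun X => (H X).rank = 1) → VeryGeneral fun X => NoEmbedding.{v, u} (H X)) := by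
  have h1 : ∀ X, ¬ (H X).HasK3 → NoEmbedding.{v, u} (H X) := by
    intro X hX
    unfold NoEmbedding
    intro 𝒜 _ _ _ _ _ _ _ 𝒟 _ _ _ _ _ _ _ _ Φ _ _ _ hA hD hΦ
    obtain ⟨KA⟩ := hA
    obtain ⟨S⟩ := hD
    have := hΦ.1
    have := hΦ.2
    exact hX (hasK3_of_embedding (hH X) KA S Φ)
  have h2 : ∀ X, (H X).rank = 1 → NoEmbedding.{v, u} (H X) := by
    intro X hX
    refine h1 X fun hK => ?_
    have := ((hasK3_iff (hH X)).1 hK).1
    omega
  refine ⟨h1, h2, ?_⟩
  rintro ⟨f, hf, hP⟩
  exact ⟨f, hf, fun X hX => h2 X (hP X hX)⟩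

end Pool.Agent.Results.MP_7692e7_ag.NoSurface
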